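import Mathlib

set_option autoImplicit false

namespace Pool.Agent.H102Z.Bi

open MeasureTheory

/-- a finite sequence, padded by the top element -/
def kb (s : List ℕ) (i : ℕ) : ℕ∞ := (s[i]?).elim ⊤ (fun a => (a : ℕ∞))

theorem kb_top {s : List ℕ} {i : ℕ} : kb s i = ⊤ ↔ s.length ≤ i := by
  unfold kb
  by_cases h : i < s.length
  · simp [h]
  · simp [not_lt.1 h]

theorem kb_inj : Function.Injective kb := by
  intro s t h
  apply List.ext_getElem?
  intro i
  have h1 := congrFun h i
  unfold kb at h1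
  cases hs : s[i]? <;> cases ht : t[i]? <;> simp_all

theorem kb_ofFn (y : ℕ → ℕ) (n i : ℕ) :
    kb (List.ofFn fun j : Fin n => y j) i = if i < n then (y i : ℕ∞) else ⊤ := by
  unfold kb
  by_cases h : i < n
  · simp [h]
  · simp [h]

theorem lex_stab (g : ℕ → ℕ → ℕ∞) (hg : ∀ k, toLex (g (k + 1)) < toLex (g k)) (i : ℕ) :
    ∃ N, ∀ k, N ≤ k → ∀ j, j ≤ i → g k j = g N j := by
  induction i using Nat.strong_induction_on with
  | _ i ih =>
    have h0 : ∃ N, ∀ k, N ≤ k → ∀ j, j < i → g k j = g N j := by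
      rcases i with _ | i
      · exact ⟨0, fun k _ j hj => absurd hj (Nat.not_lt_zero j)⟩
      · obtain ⟨N, hN⟩ := ih i (Nat.lt_succ_self i)
        exact ⟨N, fun k hk j hj => hN k hk j (Nat.lt_succ_iff.1 hj)⟩
    obtain ⟨N, hN⟩ := h0
    have h1 : ∀ k, g (N + k + 1) i ≤ g (N + k) i := by
      intro k
      obtain ⟨m, hm1, hm2⟩ := hg (N + k)
      have hm1' : ∀ j, j < m → g (N + k + 1) j = g (N + k) j := hm1
      have hm2' : g (N + k + 1) m < g (N + k) m := hm2
      rcases lt_trichotomy m i with h | h | h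
      · rw [hN (N + k + 1) (by omega) m h, hN (N + k) (by omega) m h] at hm2'
        exact absurd hm2' (lt_irrefl _)
      · exact h ▸ hm2'.le
      · exact (hm1' i h).le
    have h2 : Antitone fun k => g (N + k) i := antitone_nat_of_succ_le h1
    obtain ⟨M, hM⟩ := WellFoundedLT.antitone_chain_condition h2
    refine ⟨N + M, fun k hk j hj => ?_⟩
    rcases hj.lt_or_eq with h | h
    · rw [hN k (by omega) j h, hN (N + M) (by omega) j h]
    · subst h
      have := hM (k - N) (by omega)
      have e : N + (k - N) = k := by omega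
      simp only [e] at this
      exact this.symm

/-- the tree attached to a point -/
def Tr (f : (ℕ → ℕ) → (ℕ → ℕ)) (x : ℕ → ℕ) (s : List ℕ) : Prop :=
  ∃ y : ℕ → ℕ, ∀ i, i < s.length → kb s i = y i ∧ f y i = x i

theorem isOpen_Tr (f : (ℕ → ℕ) → (ℕ → ℕ)) (s : List ℕ) : IsOpen {x | Tr f x s} := by
  have e : {x | Tr f x s} = ⋃ y : ℕ → ℕ, ⋂ i ∈ Finset.range s.length,
      {x : ℕ → ℕ | kb s i = y i ∧ f y i = x i} := by
    ext x
    simp [Tr]
  rw [e]
  refine isOpen_iUnion fun y => isOpen_biInter_finset fun i _ => ?_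
  have hc : Continuous fun x : ℕ → ℕ => x i := continuous_apply i
  exact (isOpen_discrete {z : ℕ | kb s i = y i ∧ f y i = z}).preimage hc

theorem mem_of_chain {f : (ℕ → ℕ) → (ℕ → ℕ)} (hf : Continuous f) {x : ℕ → ℕ} (s : ℕ → List ℕ)
    (h1 : ∀ k, Tr f x (s k)) (h2 : ∀ k, toLex (kb (s (k + 1))) < toLex (kb (s k))) :
    x ∈ Set.range f := by
  choose N hN using lex_stab (fun k => kb (s k)) h2
  have h3 : ∀ i, i < (s (N i)).length := by
    intro i
    by_contra hcon
    have h4 : kb (s (N i)) i = ⊤ := kb_top.2 (not_lt.1 hcon)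
    have h5 : kb (s (N i + 1)) i = ⊤ := (hN i (N i + 1) (by omega) i le_rfl).trans h4
    have h6 : kb (s (N i + 1)) = kb (s (N i)) := by
      funext j
      by_cases hj : j ≤ i
      · exact hN i (N i + 1) (by omega) j hj
      · rw [kb_top.2 ((kb_top.1 h5).trans (by omega)), kb_top.2 ((kb_top.1 h4).trans (by omega))]
    have h7 := h2 (N i)
    rw [h6] at h7
    exact lt_irrefl _ h7
  choose y hy using h1
  let z : ℕ → ℕ := fun i => y (N i) i
  have h4 : ∀ i j, j ≤ i → y (N i) j = z j := by
    intro i j hj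
    have a1 := (hy (N i) j (lt_of_le_of_lt hj (h3 i))).1
    have a2 := (hy (N j) j (h3 j)).1
    have a3 := hN i (max (N i) (N j)) (le_max_left _ _) j hj
    have a4 := hN j (max (N i) (N j)) (le_max_right _ _) j le_rfl
    have a5 : ((y (N i) j : ℕ) : ℕ∞) = (y (N j) j : ℕ) := by
      rw [← a1, ← a2]
      exact a3.symm.trans a4
    exact_mod_cast a5
  have h5 : Filter.Tendsto (fun i => y (N i)) Filter.atTop (nhds z) := by
    rw [tendsto_pi_nhds]
    intro j
    refine tendsto_const_nhds.congr' ?_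
    filter_upwards [Filter.eventually_ge_atTop j] with i hi using (h4 i j hi).symm
  have h6 : Filter.Tendsto (fun i => f (y (N i))) Filter.atTop (nhds x) := by
    rw [tendsto_pi_nhds]
    intro j
    refine tendsto_const_nhds.congr' ?_
    filter_upwards [Filter.eventually_ge_atTop j] with i hi
    exact ((hy (N i) j (lt_of_le_of_lt hi (h3 i))).2).symm
  exact ⟨z, tendsto_nhds_unique ((hf.tendsto z).comp h5) h6⟩

open Classical in
/-- the key by which the finite sequences are ordered -/
noncomputable def key (p : Prop) (s : List ℕ) : ℕ ×ₗ Lex (ℕ → ℕ∞) :=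
  toLex (if p then 0 else Encodable.encode s + 1, toLex (kb s))

theorem exists_order (T : Set (ℕ → ℕ)) (hT : AnalyticSet T) :
    ∃ K : (ℕ → ℕ) → List ℕ → ℕ ×ₗ Lex (ℕ → ℕ∞),
      (∀ s t, MeasurableSet {x | K x s < K x t}) ∧ (∀ x, Function.Injective (K x)) ∧
      ∀ x, x ∈ T ↔ ¬ WellFounded (fun s t => K x s < K x t) := by
  classical
  have hinj : ∀ p : List ℕ → Prop, Function.Injective (fun s => key (p s) s) := by
    intro p s t h
    exact kb_inj (congrArg (fun z => ofLex (ofLex z).2) h)
  have hwf : ∀ p : List ℕ → Prop, ¬ WellFounded (fun s t => key (p s) s < key (p t) t) →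
      ∃ s : ℕ → List ℕ, (∀ k, p (s k)) ∧ ∀ k, toLex (kb (s (k + 1))) < toLex (kb (s k)) := by
    intro p h
    rw [wellFounded_iff_isEmpty_descending_chain, not_isEmpty_iff] at h
    obtain ⟨⟨s, hs⟩⟩ := h
    let c : ℕ → ℕ := fun k => if p (s k) then 0 else Encodable.encode (s k) + 1
    have h1 : ∀ k, c (k + 1) < c k ∨ (c (k + 1) = c k ∧
        toLex (kb (s (k + 1))) < toLex (kb (s k))) := fun k =>
      Prod.Lex.toLex_lt_toLex.1 (hs k)
    have h2 : Antitone c := antitone_nat_of_succ_le fun k => by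
      rcases h1 k with h | h
      · exact h.le
      · exact h.1.le
    obtain ⟨M, hM⟩ := WellFoundedLT.antitone_chain_condition h2
    have h3 : ∀ k, toLex (kb (s (M + k + 1))) < toLex (kb (s (M + k))) := by
      intro k
      rcases h1 (M + k) with h | h
      · rw [← hM (M + k + 1) (by omega), ← hM (M + k) (by omega)] at h
        exact absurd h (lt_irrefl _)
      · exact h.2
    refine ⟨fun k => s (M + k), fun k => ?_, h3⟩
    by_contra hcon
    have h4 : c (M + k + 1) = c (M + k) := by
      rw [← hM (M + k + 1) (by omega), ← hM (M + k) (by omega)]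
    have h5 : s (M + k + 1) = s (M + k) := by
      simp only [c, if_neg hcon] at h4
      by_cases h6 : p (s (M + k + 1))
      · rw [if_pos h6] at h4
        omega
      · rw [if_neg h6] at h4
        exact Encodable.encode_injective (by omega)
    have h6 := h3 k
    rw [h5] at h6
    exact lt_irrefl _ h6
  rcases (AnalyticSet_def T ▸ hT : T = ∅ ∨ ∃ f : (ℕ → ℕ) → (ℕ → ℕ), Continuous f ∧
    Set.range f = T) with h | ⟨f, hf, rfl⟩
  · refine ⟨fun _ s => key False s, fun s t => MeasurableSet.const _, fun _ => hinj _, fun x => ?_⟩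
    rw [h]
    refine ⟨fun h => h.elim, fun h => ?_⟩
    obtain ⟨s, hs, _⟩ := hwf (fun _ => False) h
    exact (hs 0).elim
  · refine ⟨fun x s => key (Tr f x s) s, fun s t => ?_, fun x => hinj _, fun x => ⟨?_, ?_⟩⟩
    · have m1 : Measurable fun x => (Tr f x s, Tr f x t) :=
        (measurableSet_setOfPred.1 (isOpen_Tr f s).measurableSet).prodMk
          (measurableSet_setOfPred.1 (isOpen_Tr f t).measurableSet)
      exact m1 (MeasurableSet.of_discrete (s := {z : Prop × Prop | key z.1 s < key z.2 t}))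
    · rintro ⟨y, rfl⟩
      rw [wellFounded_iff_isEmpty_descending_chain, not_isEmpty_iff]
      have h1 : ∀ n, Tr f (f y) (List.ofFn fun j : Fin n => y j) := by
        intro n
        refine ⟨y, fun i hi => ⟨?_, rfl⟩⟩
        rw [kb_ofFn, if_pos (by simpa using hi)]
      refine ⟨⟨fun n => List.ofFn fun j : Fin n => y j, fun n => ?_⟩⟩
      refine Prod.Lex.toLex_lt_toLex.2 (Or.inr ⟨?_, n, fun j hj => ?_, ?_⟩)
      · simp only [if_pos (h1 _)]
      · change kb _ j = kb _ j
        have hj' : j < n := hj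
        rw [kb_ofFn, kb_ofFn, if_pos hj', if_pos (by omega)]
      · change kb _ n < kb _ n
        rw [kb_ofFn, kb_ofFn, if_pos (by omega), if_neg (by omega)]
        exact ENat.natCast_lt_top _
    · intro h
      obtain ⟨s, hs1, hs2⟩ := hwf (Tr f x) h
      exact mem_of_chain hf s hs1 hs2

end Pool.Agent.H102Z.Bi
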